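import Pool.Agent.Y451.FM.Main

set_option autoImplicit false

/-!
# `FIID(ℤⁿ) = MEASURE(ℤⁿ)` for every `n`
-/

open MeasureTheory

noncomputable section

namespace Pool.Agent.Results.MP_dc4ce7_lc.FiidEqMeasure

/-- `P` is a set of allowed patterns on the ball of radius `r` of `ℤⁿ` with labels in `Fin k`; for an
action `a` of `ℤⁿ` on `X` and a measure `μ` there is a measurable solution of the problem. -/
def Solvable {n k r : ℕ} (P : Set ({v : Fin n → ℤ // ∀ i, |v i| ≤ (r : ℤ)} → Fin k))
    (X : Type) [MeasurableSpace X] (a : (Fin n → ℤ) → X → X) (μ : Measure X) : Prop :=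
  ∃ f : X → Fin k, Measurable f ∧
    ∀ᵐ x ∂μ, (fun v : {v : Fin n → ℤ // ∀ i, |v i| ≤ (r : ℤ)} => f (a v.1 x)) ∈ P

/-- the free part of the shift on `[0,1]^{ℤⁿ}` -/
abbrev FreePart (n : ℕ) : Type :=
  {x : (Fin n → ℤ) → unitInterval // ∀ g : Fin n → ℤ, (fun h => x (h + g)) = x → g = 0}

/-- the shift action of `ℤⁿ` on the free part -/
def shift {n : ℕ} (g : Fin n → ℤ) (x : FreePart n) : FreePart n :=
  ⟨fun h => x.1 (h + g), (Pool.Agent.Y451.FM.shF g x).2⟩

/-- the product of the Lebesgue measures of `[0,1]`, on the free part -/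
def bernoulli (n : ℕ) : Measure (FreePart n) :=
  Measure.comap Subtype.val
    (Measure.infinitePi fun _ : Fin n → ℤ => (volume : Measure unitInterval))

/-- the problems with `k` labels and radius `r` in the class `MEASURE(ℤⁿ)` -/
def MEASURE (n k r : ℕ) : Set (Set ({v : Fin n → ℤ // ∀ i, |v i| ≤ (r : ℤ)} → Fin k)) :=
  {P | ∀ (X : Type) [MeasurableSpace X] [StandardBorelSpace X] (a : (Fin n → ℤ) → X → X),
    (∀ x, a 0 x = x) → (∀ g h x, a (g + h) x = a g (a h x)) → (∀ g, Measurable (a g)) →
    (∀ g x, a g x = x → g = 0) →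
    ∀ (μ : Measure X) [IsProbabilityMeasure μ], Solvable P X a μ}

/-- the problems with `k` labels and radius `r` in the class `FIID(ℤⁿ)` -/
def FIID (n k r : ℕ) : Set (Set ({v : Fin n → ℤ // ∀ i, |v i| ≤ (r : ℤ)} → Fin k)) :=
  {P | Solvable P (FreePart n) shift (bernoulli n)}

/-- **`FIID(ℤⁿ) = MEASURE(ℤⁿ)`** for every `n`: a local problem with a measurable solution on the
free part of the Bernoulli shift `[0,1]^{ℤⁿ}` has a measurable solution for every free Borel action
of `ℤⁿ` on a standard Borel space and every Borel probability measure (not assumed invariant), and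
conversely. -/
theorem result : ∀ n : ℕ, IsProbabilityMeasure (bernoulli n) ∧
    ∀ k r : ℕ, MEASURE n k r = FIID n k r := by
  intro n
  refine ⟨Pool.Agent.Y473.FMF.prob n, fun k r => ?_⟩
  ext P
  exact (Pool.Agent.Y451.FM.main n k r P).symm

end Pool.Agent.Results.MP_dc4ce7_lc.FiidEqMeasure

end
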